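import Pool.Agent.W323.SC.Stm

set_option autoImplicit false
open Finset
open scoped Classical

namespace Pool.Agent.W702.SC

open Pool.Agent.W323.SC

theorem span3 {n : ℕ} (M : Matroid (Fin n)) (hE : M.E = Set.univ) (hr : M.eRank = 3)
    {e p u : Fin n} (he : M.Indep {e}) (hp : p ∉ M.closure {e}) (hu : u ∉ M.closure {e, p})
    (S : Set (Fin n)) (h : ({u, p, e} : Set (Fin n)) ⊆ S) : M.Spanning S := by
  have h2 : M.Indep {p, e} := by
    rw [he.insert_indep_iff]
    left; exact ⟨by rw [hE]; trivial, hp⟩
  have h3 : M.Indep {u, p, e} := by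
    rw [h2.insert_indep_iff]
    left
    refine ⟨by rw [hE]; trivial, ?_⟩
    rw [Set.pair_comm]; exact hu
  obtain ⟨B, hB, hIB⟩ := h3.exists_isBase_superset
  have hpe : p ≠ e := by
    rintro rfl
    exact hp (M.mem_closure_of_mem (Set.mem_singleton _) (by rw [hE]; exact Set.subset_univ _))
  have hue : u ≠ e := by
    rintro rfl
    exact hu (M.mem_closure_of_mem (by simp) (by rw [hE]; exact Set.subset_univ _))
  have hup : u ≠ p := by
    rintro rfl
    exact hu (M.mem_closure_of_mem (by simp) (by rw [hE]; exact Set.subset_univ _))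
  have hc : ({u, p, e} : Set (Fin n)).encard = 3 := by
    rw [Set.encard_eq_three]
    exact ⟨u, p, e, hup, hue, hpe, rfl⟩
  have hBc : B.encard = 3 := by rw [hB.encard_eq_eRank, hr]
  have hEq : ({u, p, e} : Set (Fin n)) = B :=
    Set.Finite.eq_of_subset_of_encard_le (Set.toFinite _) hIB (by rw [hBc, hc])
  rw [← hEq] at hB
  exact hB.spanning.superset h (by rw [hE]; exact Set.subset_univ _)

theorem not_span {n : ℕ} (M : Matroid (Fin n)) (hE : M.E = Set.univ) (hr : M.eRank = 3)
    (a b : Fin n) (S : Set (Fin n)) (h : S ⊆ M.closure {a, b}) : ¬ M.Spanning S := by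
  intro hS
  have h1 : M.Spanning {a, b} := by
    rw [Matroid.spanning_iff]
    refine ⟨?_, by rw [hE]; exact Set.subset_univ _⟩
    apply subset_antisymm (M.closure_subset_ground _)
    rw [← hS.closure_eq]
    exact M.closure_subset_closure_of_subset_closure h
  obtain ⟨B, hB, hBs⟩ := h1.exists_isBase_subset
  have h3 := hB.encard_eq_eRank
  rw [hr] at h3
  have h4 := Set.encard_le_encard hBs
  have h5 : ({a, b} : Set (Fin n)).encard ≤ 2 := by
    refine (Set.encard_insert_le _ _).trans ?_
    rw [Set.encard_singleton]; norm_num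
  rw [h3] at h4
  exact absurd (h4.trans h5) (by norm_num)

theorem mem_clF {n : ℕ} (M : Matroid (Fin n)) (S : Set (Fin n)) (x : Fin n) :
    x ∈ clF M S ↔ x ∈ M.closure S := by simp [clF]

theorem m1 : S_M1 := by
  intro n M hE hr e f hef hI X hX
  have hEs : ∀ S : Set (Fin n), S ⊆ M.E := fun S => by rw [hE]; exact Set.subset_univ _
  have he1 : M.Indep {e} := hI.subset (by simp)
  have hfe : f ∉ M.closure {e} := by
    have h1 : M.Indep (insert f {e}) := by rw [Set.pair_comm]; exact hI
    rw [he1.insert_indep_iff] at h1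
    rcases h1 with h1 | h1
    · exact h1.2
    · exact absurd h1.symm hef
  have hLLc : ∀ x ∈ LL M e f, x ∈ M.closure {e, f} := fun x hx => by
    rw [LL, Finset.mem_sdiff, mem_clF] at hx; exact hx.1
  have hTTc : ∀ x, x ∈ TT M e f → x ∉ M.closure {e, f} := fun x hx => by
    rw [TT, Finset.mem_sdiff, mem_clF] at hx; exact hx.2
  have hecl : e ∈ M.closure {e, f} := M.mem_closure_of_mem (by simp) (hEs _)
  have hfcl : f ∈ M.closure {e, f} := M.mem_closure_of_mem (by simp) (hEs _)
  have hsub1 : M.closure {e} ⊆ M.closure {e, f} := M.closure_subset_closure (by simp)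
  have hTT : ∀ x ∈ X, x ∉ LL M e f → x ∈ TT M e f := fun x hx hx' => by
    have := hX hx
    rw [Finset.mem_union] at this
    tauto
  refine ⟨⟨fun h => ?_, fun h => ?_⟩, ⟨fun h => ?_, fun h => ?_⟩⟩
  · intro x hx
    by_contra hx'
    apply h
    have hxT := hTTc x (hTT x hx hx')
    refine span3 M hE hr he1 hfe hxT _ ?_
    intro y hy
    simp only [Set.mem_insert_iff, Set.mem_singleton_iff] at hy
    rcases hy with rfl | rfl | rfl <;> simp [hx]
  · refine not_span M hE hr e f _ ?_
    intro y hy
    simp only [Finset.coe_insert, Set.mem_insert_iff, Finset.mem_coe] at hy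
    rcases hy with rfl | rfl | hy
    · exact hecl
    · exact hfcl
    · exact hLLc y (h hy)
  · by_cases hXL : X ⊆ LL M e f
    · exact Or.inl hXL
    right
    rw [Finset.not_subset] at hXL
    obtain ⟨p, hpX, hpL⟩ := hXL
    have hpT := hTT p hpX hpL
    have hp2 := hTTc p hpT
    have hp1 : p ∉ M.closure {e} := fun h' => hp2 (hsub1 h')
    have key : ∀ u ∈ X, u ∈ M.closure {e, p} := by
      intro u hu
      by_contra hu'
      apply h
      refine span3 M hE hr he1 hp1 hu' _ ?_
      intro y hy
      simp only [Set.mem_insert_iff, Set.mem_singleton_iff] at hy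
      rcases hy with rfl | rfl | rfl <;> simp [hu, hpX]
    have hcong : ∀ u q : Fin n, u ∈ M.closure {e, q} → u ∉ M.closure {e} →
        M.closure {e, q} = M.closure {e, u} := by
      intro u q h1 h2
      rw [Set.pair_comm e q, Set.pair_comm e u]
      rw [Set.pair_comm] at h1
      exact (M.closure_insert_congr ⟨h1, h2⟩).symm
    refine ⟨?_, ?_⟩
    · have h1 : ∀ u ∈ X ∩ TT M e f, lab M e u = lab M e p := by
        intro u hu
        rw [Finset.mem_inter] at hu
        have := hcong u p (key u hu.1) (fun h' => hTTc u hu.2 (hsub1 h'))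
        unfold lab clF
        rw [this]
      intro u hu v hv
      rw [h1 u hu, h1 v hv]
    · intro x hx
      rw [Finset.mem_inter] at hx
      rw [PP, Finset.mem_sdiff, mem_clF]
      refine ⟨?_, ?_⟩
      · by_contra hx'
        have h1 := hcong x p (key x hx.1) hx'
        have h2 := hcong x f (hLLc x hx.2) hx'
        apply hp2
        rw [h2, ← h1]
        exact M.mem_closure_of_mem (by simp) (hEs _)
      · have := hx.2
        rw [LL, Finset.mem_sdiff] at this
        intro h'
        apply this.2
        rw [Finset.mem_singleton] at h'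
        simp [h']
  · by_cases hXL : X ⊆ LL M e f
    · refine not_span M hE hr e f _ ?_
      intro y hy
      simp only [Finset.coe_insert, Set.mem_insert_iff, Finset.mem_coe] at hy
      rcases hy with rfl | hy
      · exact hecl
      · exact hLLc y (hXL hy)
    · rcases h with h | h
      · exact absurd h hXL
      rw [Finset.not_subset] at hXL
      obtain ⟨p, hpX, hpL⟩ := hXL
      have hpT := hTT p hpX hpL
      refine not_span M hE hr e p _ ?_
      intro y hy
      simp only [Finset.coe_insert, Set.mem_insert_iff, Finset.mem_coe] at hy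
      rcases hy with rfl | hy
      · exact M.mem_closure_of_mem (by simp) (hEs _)
      · by_cases hyL : y ∈ LL M e f
        · have h1 := h.2 (Finset.mem_inter.2 ⟨hy, hyL⟩)
          rw [PP, Finset.mem_sdiff, mem_clF] at h1
          exact M.closure_subset_closure (by simp) h1.1
        · have hyT := hTT y hy hyL
          have h1 := h.1 y (Finset.mem_inter.2 ⟨hy, hyT⟩) p (Finset.mem_inter.2 ⟨hpX, hpT⟩)
          have h2 : y ∈ clF M {e, y} := by
            rw [mem_clF]; exact M.mem_closure_of_mem (by simp) (hEs _)
          have h3 : y ∈ clF M {e, p} := by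
            have : clF M {e, y} = clF M {e, p} := h1
            rw [← this]; exact h2
          rwa [mem_clF] at h3

end Pool.Agent.W702.SC
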